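import Mathlib

/-!
Spaces with a non-degenerate alternating form have even dimension.
-/

open Module

namespace Pool.Agent.Helper8

lemma even_of_symp {V : Type*} [AddCommGroup V] [Module ℂ V] [FiniteDimensional ℂ V]
    (ω : V →ₗ[ℂ] V →ₗ[ℂ] ℂ) (alt : ∀ x y, ω x y = - ω y x)
    (nd : ∀ x, (∀ y, ω x y = 0) → x = 0) : Even (finrank ℂ V) := by
  classical
  obtain ⟨b⟩ : Nonempty (Basis (Fin (finrank ℂ V)) ℂ V) := ⟨Module.finBasis ℂ V⟩
  obtain ⟨M, hM⟩ : ∃ M : Matrix (Fin (finrank ℂ V)) (Fin (finrank ℂ V)) ℂ,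
      M = Matrix.of fun i j => ω (b i) (b j) := ⟨_, rfl⟩
  have hM' : ∀ i j, M i j = ω (b i) (b j) := fun i j => by rw [hM]; rfl
  have hdet : M.det ≠ 0 := by
    intro h0
    obtain ⟨v, hv, hMv⟩ := Matrix.exists_mulVec_eq_zero_iff.mpr h0
    apply hv
    have h1 : ∑ j, v j • b j = 0 := by
      apply nd
      intro y
      have h2 : ∀ i, ω (∑ j, v j • b j) (b i) = 0 := by
        intro i
        have h3 := congrFun hMv i
        rw [Matrix.mulVec, dotProduct, Pi.zero_apply] at h3
        rw [map_sum, LinearMap.sum_apply]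
        rw [← neg_eq_zero, ← h3, ← Finset.sum_neg_distrib]
        refine Finset.sum_congr rfl fun j _ => ?_
        rw [map_smul, LinearMap.smul_apply, smul_eq_mul, hM', alt (b j) (b i)]
        ring
      rw [← b.sum_repr y, map_sum]
      refine Finset.sum_eq_zero fun i _ => ?_
      rw [map_smul, h2, smul_zero]
    have h2 := Fintype.linearIndependent_iff.mp b.linearIndependent v h1
    funext i
    exact h2 i
  have hT : M.transpose = -M := by
    ext i j
    rw [Matrix.transpose_apply, Matrix.neg_apply, hM', hM', alt]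
  have h1 : M.det = (-1) ^ finrank ℂ V * M.det := by
    conv_lhs => rw [← Matrix.det_transpose, hT, Matrix.det_neg, Fintype.card_fin]
  by_contra hodd
  rw [Nat.not_even_iff_odd] at hodd
  rw [hodd.neg_one_pow] at h1
  apply hdet
  linear_combination h1 / 2

end Pool.Agent.Helper8
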