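import Pool.Agent.Helper8.Lie.IrrFrames
import Pool.Agent.Helper8.Lie.ModLemmas

/-!
Parity of the weights of irreducible symplectic modules.
-/

open Module LieAlgebra LieModule

namespace Pool.Agent.Helper8

section
variable {L : Type*} [LieRing L] [LieAlgebra ℂ L] (p : Principal L)
  {V : Type*} [AddCommGroup V] [Module ℂ V] [LieRingModule L V] [LieModule ℂ L V]
  [FiniteDimensional ℂ V] [LieModule.IsIrreducible ℂ L V]
  {ω : V →ₗ[ℂ] V →ₗ[ℂ] ℂ} (hω : Symp L ω)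

include hω in
/-- irreducible symplectic modules are spanned by vectors of odd weight -/
lemma Principal.odd_span :
    ⊤ ≤ Submodule.span ℂ {v : V | ∃ m : ℤ, Odd m ∧ ⁅p.h, v⁆ = (m : ℂ) • v} := by
  obtain ⟨m, v, hm, -, -, -, hall⟩ := p.top_data hω
  obtain ⟨m', v', -, -, -, -, htop⟩ := p.top (V := V)
  refine htop.trans (iSup_le fun k => ?_)
  intro w hw
  rw [Module.End.mem_eigenspace_iff] at hw
  have hw' : ⁅p.h, w⁆ = ((m' : ℂ) - 2 * k) • w := hw
  by_cases hw0 : w = 0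
  · rw [hw0]; exact Submodule.zero_mem _
  obtain ⟨k', hk'⟩ := hall _ w hw0 hw'
  apply Submodule.subset_span
  refine ⟨(m : ℤ) - 2 * k', ?_, ?_⟩
  · obtain ⟨j, hj⟩ := hm
    exact ⟨(j : ℤ) - k', by rw [hj]; push_cast; ring⟩
  · rw [hw', hk']
    push_cast
    rfl

include hω in
/-- linear functions vanishing on the vectors of odd weight -/
lemma Principal.odd_ext {φ : V → ℂ} (hφ : IsLinearMap ℂ φ)
    (h : ∀ (m : ℤ) (v : V), Odd m → ⁅p.h, v⁆ = (m : ℂ) • v → φ v = 0) (v : V) : φ v = 0 := by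
  have hv : v ∈ Submodule.span ℂ {v : V | ∃ m : ℤ, Odd m ∧ ⁅p.h, v⁆ = (m : ℂ) • v} :=
    p.odd_span hω Submodule.mem_top
  induction hv using Submodule.span_induction with
  | mem v hv =>
    obtain ⟨m, hm, hv⟩ := hv
    exact h m v hm hv
  | zero => exact hφ.map_zero
  | add x y _ _ hx hy => rw [hφ.map_add, hx, hy, add_zero]
  | smul c x _ hx => rw [hφ.map_smul, hx, smul_zero]

end

section
variable {L : Type*} [LieRing L] [LieAlgebra ℂ L] (p : Principal L)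
  {V1 : Type*} [AddCommGroup V1] [Module ℂ V1] [LieRingModule L V1] [LieModule ℂ L V1]
  [FiniteDimensional ℂ V1] [LieModule.IsIrreducible ℂ L V1]
  {ω1 : V1 →ₗ[ℂ] V1 →ₗ[ℂ] ℂ} (hω1 : Symp L ω1)

include p hω1 in
/-- one slot of odd weight -/
theorem odd1 {V2 V3 V4 : Type*} [AddCommGroup V2] [Module ℂ V2] [LieRingModule L V2]
    [AddCommGroup V3] [Module ℂ V3] [LieRingModule L V3]
    [AddCommGroup V4] [Module ℂ V4] [LieRingModule L V4] {G : V1 → V2 → V3 → V4 → ℂ}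
    (hG : ML4 G) (hI : Inv4 L G) (t2 : ∀ (x : L) (v : V2), ⁅x, v⁆ = 0)
    (t3 : ∀ (x : L) (v : V3), ⁅x, v⁆ = 0) (t4 : ∀ (x : L) (v : V4), ⁅x, v⁆ = 0)
    (x : V1) (y : V2) (z : V3) (w : V4) : G x y z w = 0 := by
  refine p.odd_ext hω1 (hG.l1 y z w) (fun m x hm hx => ?_) x
  have h := hI p.h x y z w
  rw [t2, t3, t4, hx, (hG.l1 y z w).map_smul, (hG.l2 x z w).map_zero, (hG.l3 x y w).map_zero,
    (hG.l4 x y z).map_zero, add_zero, add_zero, add_zero, smul_eq_mul] at h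
  rcases mul_eq_zero.mp h with h | h
  · exfalso
    have h2 : m = 0 := by exact_mod_cast h
    rw [h2] at hm
    exact absurd hm (by decide)
  · exact h

variable {V2 : Type*} [AddCommGroup V2] [Module ℂ V2] [LieRingModule L V2] [LieModule ℂ L V2]
  [FiniteDimensional ℂ V2] [LieModule.IsIrreducible ℂ L V2]
  {ω2 : V2 →ₗ[ℂ] V2 →ₗ[ℂ] ℂ} (hω2 : Symp L ω2)
  {V3 : Type*} [AddCommGroup V3] [Module ℂ V3] [LieRingModule L V3] [LieModule ℂ L V3]
  [FiniteDimensional ℂ V3] [LieModule.IsIrreducible ℂ L V3]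
  {ω3 : V3 →ₗ[ℂ] V3 →ₗ[ℂ] ℂ} (hω3 : Symp L ω3)

include p hω1 hω2 hω3 in
/-- three slots of odd weight -/
theorem odd3 {V4 : Type*} [AddCommGroup V4] [Module ℂ V4] [LieRingModule L V4]
    {G : V1 → V2 → V3 → V4 → ℂ}
    (hG : ML4 G) (hI : Inv4 L G) (t4 : ∀ (x : L) (v : V4), ⁅x, v⁆ = 0)
    (x : V1) (y : V2) (z : V3) (w : V4) : G x y z w = 0 := by
  refine p.odd_ext hω1 (hG.l1 y z w) (fun m1 x hm1 hx => ?_) x
  refine p.odd_ext hω2 (hG.l2 x z w) (fun m2 y hm2 hy => ?_) y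
  refine p.odd_ext hω3 (hG.l3 x y w) (fun m3 z hm3 hz => ?_) z
  have h := hI p.h x y z w
  rw [t4, hx, hy, hz, (hG.l1 y z w).map_smul, (hG.l2 x z w).map_smul, (hG.l3 x y w).map_smul,
    (hG.l4 x y z).map_zero, add_zero, smul_eq_mul, smul_eq_mul, smul_eq_mul] at h
  have h1 : ((m1 + m2 + m3 : ℤ) : ℂ) * G x y z w = 0 := by
    push_cast
    linear_combination h
  rcases mul_eq_zero.mp h1 with h | h
  · exfalso
    have h2 : m1 + m2 + m3 = 0 := by exact_mod_cast h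
    obtain ⟨a, ha⟩ := hm1
    obtain ⟨b, hb⟩ := hm2
    obtain ⟨c, hc⟩ := hm3
    omega
  · exact h

end

end Pool.Agent.Helper8
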