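import Pool.Agent.Helper7.Wedge
import Pool.Agent.Helper8.Lie.Contr
import Pool.Agent.Helper8.Lie.Classify
import Pool.Agent.Helper8.Lie.Semisimple

/-!
Functions of four vectors which are combinations of products of bilinear forms.
-/

namespace Pool.Agent.Helper8

open Module Equiv Pool.Agent.Helper7

section
variable {W : Type*} [AddCommGroup W] [Module ℂ W]

/-- four vectors as family -/
def q4 (x y z w : W) : Fin (2 * 2) → W := fun r =>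
  if r.1 = 0 then x else if r.1 = 1 then y else if r.1 = 2 then z else w

omit [AddCommGroup W] [Module ℂ W] in
lemma q4_eq (v : Fin (2 * 2) → W) :
    v = q4 (v ⟨0, by norm_num⟩) (v ⟨1, by norm_num⟩) (v ⟨2, by norm_num⟩) (v ⟨3, by norm_num⟩) := by
  funext r
  rcases r with ⟨r, hr⟩
  have h : r = 0 ∨ r = 1 ∨ r = 2 ∨ r = 3 := by omega
  rcases h with rfl | rfl | rfl | rfl <;> simp [q4]

/-- combinations of products of bilinear forms from a set -/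
def S4 (B : Set (W →ₗ[ℂ] W →ₗ[ℂ] ℂ)) : Submodule ℂ (W → W → W → W → ℂ) :=
  Submodule.span ℂ ({F | ∃ β ∈ B, ∃ γ ∈ B, F = fun x y z w => β x y * γ z w} ∪
    {F | ∃ β ∈ B, ∃ γ ∈ B, F = fun x y z w => β x z * γ y w} ∪
    {F | ∃ β ∈ B, ∃ γ ∈ B, F = fun x y z w => β x w * γ y z})

variable {B : Set (W →ₗ[ℂ] W →ₗ[ℂ] ℂ)}

lemma S4.m1 {β γ : W →ₗ[ℂ] W →ₗ[ℂ] ℂ} (hβ : β ∈ B) (hγ : γ ∈ B) :
    (fun x y z w => β x y * γ z w) ∈ S4 B :=
  Submodule.subset_span (Or.inl (Or.inl ⟨β, hβ, γ, hγ, rfl⟩))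

lemma S4.m2 {β γ : W →ₗ[ℂ] W →ₗ[ℂ] ℂ} (hβ : β ∈ B) (hγ : γ ∈ B) :
    (fun x y z w => β x z * γ y w) ∈ S4 B :=
  Submodule.subset_span (Or.inl (Or.inr ⟨β, hβ, γ, hγ, rfl⟩))

lemma S4.m3 {β γ : W →ₗ[ℂ] W →ₗ[ℂ] ℂ} (hβ : β ∈ B) (hγ : γ ∈ B) :
    (fun x y z w => β x w * γ y z) ∈ S4 B :=
  Submodule.subset_span (Or.inr ⟨β, hβ, γ, hγ, rfl⟩)

/-- closure of the set of bilinear forms under exchange of the arguments -/
def FlipClosed (B : Set (W →ₗ[ℂ] W →ₗ[ℂ] ℂ)) : Prop := ∀ β ∈ B, β.flip ∈ B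

lemma S4.swap1 (hB : FlipClosed B) {F : W → W → W → W → ℂ} (hF : F ∈ S4 B) :
    (fun x y z w => F y x z w) ∈ S4 B := by
  let T : (W → W → W → W → ℂ) →ₗ[ℂ] (W → W → W → W → ℂ) :=
    { toFun := fun F x y z w => F y x z w
      map_add' := fun _ _ => rfl
      map_smul' := fun _ _ => rfl }
  show T F ∈ S4 B
  have h : S4 B ≤ (S4 B).comap T := by
    rw [S4, Submodule.span_le]
    rintro _ ((⟨β, hβ, γ, hγ, rfl⟩ | ⟨β, hβ, γ, hγ, rfl⟩) | ⟨β, hβ, γ, hγ, rfl⟩)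
    · exact S4.m1 (hB β hβ) hγ
    · have h1 := S4.m3 hγ hβ
      have h2 : (fun x y z w => γ x w * β y z) = T (fun x y z w => β x z * γ y w) := by
        funext x y z w
        exact mul_comm _ _
      rw [h2] at h1
      exact h1
    · have h1 := S4.m2 hγ hβ
      have h2 : (fun x y z w => γ x z * β y w) = T (fun x y z w => β x w * γ y z) := by
        funext x y z w
        exact mul_comm _ _
      rw [h2] at h1
      exact h1
  exact h hF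

lemma S4.swap2 (hB : FlipClosed B) {F : W → W → W → W → ℂ} (hF : F ∈ S4 B) :
    (fun x y z w => F x z y w) ∈ S4 B := by
  let T : (W → W → W → W → ℂ) →ₗ[ℂ] (W → W → W → W → ℂ) :=
    { toFun := fun F x y z w => F x z y w
      map_add' := fun _ _ => rfl
      map_smul' := fun _ _ => rfl }
  show T F ∈ S4 B
  have h : S4 B ≤ (S4 B).comap T := by
    rw [S4, Submodule.span_le]
    rintro _ ((⟨β, hβ, γ, hγ, rfl⟩ | ⟨β, hβ, γ, hγ, rfl⟩) | ⟨β, hβ, γ, hγ, rfl⟩)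
    · exact S4.m2 hβ hγ
    · exact S4.m1 hβ hγ
    · exact S4.m3 hβ (hB γ hγ)
  exact h hF

lemma S4.swap3 (hB : FlipClosed B) {F : W → W → W → W → ℂ} (hF : F ∈ S4 B) :
    (fun x y z w => F x y w z) ∈ S4 B := by
  let T : (W → W → W → W → ℂ) →ₗ[ℂ] (W → W → W → W → ℂ) :=
    { toFun := fun F x y z w => F x y w z
      map_add' := fun _ _ => rfl
      map_smul' := fun _ _ => rfl }
  show T F ∈ S4 B
  have h : S4 B ≤ (S4 B).comap T := by
    rw [S4, Submodule.span_le]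
    rintro _ ((⟨β, hβ, γ, hγ, rfl⟩ | ⟨β, hβ, γ, hγ, rfl⟩) | ⟨β, hβ, γ, hγ, rfl⟩)
    · exact S4.m1 hβ (hB γ hγ)
    · exact S4.m3 hβ hγ
    · exact S4.m2 hβ hγ
  exact h hF

lemma prodBilin_two (β γ : W →ₗ[ℂ] W →ₗ[ℂ] ℂ) (v : Fin (2 * 2) → W) :
    prodBilin ![β, γ] v = β (v ⟨0, by norm_num⟩) (v ⟨1, by norm_num⟩) *
      γ (v ⟨2, by norm_num⟩) (v ⟨3, by norm_num⟩) :=
  Fin.prod_univ_two (fun a : Fin 2 => (![β, γ] a) (v (lo a)) (v (hi a)))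

/-- the multilinear form attached to a combination of products -/
lemma S4.exists_form {F : W → W → W → W → ℂ} (hF : F ∈ S4 B) :
    ∃ M ∈ Submodule.span ℂ {M : MultilinearMap ℂ (fun _ : Fin (2 * 2) => W) ℂ |
      ∃ (π : Equiv.Perm (Fin (2 * 2))) (β : Fin 2 → (W →ₗ[ℂ] W →ₗ[ℂ] ℂ)),
        (∀ a, β a ∈ B) ∧ M = (prodBilin β).domDomCongr π},
      ∀ x y z w, M (q4 x y z w) = F x y z w := by
  have hfin : ∀ (b c : W →ₗ[ℂ] W →ₗ[ℂ] ℂ), b ∈ B → c ∈ B → ∀ a : Fin 2, ![b, c] a ∈ B := by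
    intro b c hb hc a
    fin_cases a
    · exact hb
    · exact hc
  induction hF using Submodule.span_induction with
  | mem F hF =>
    rcases hF with (⟨β, hβ, γ, hγ, rfl⟩ | ⟨β, hβ, γ, hγ, rfl⟩) | ⟨β, hβ, γ, hγ, rfl⟩
    · refine ⟨_, Submodule.subset_span ⟨1, ![β, γ], hfin β γ hβ hγ, rfl⟩, fun x y z w => ?_⟩
      rw [MultilinearMap.domDomCongr_apply, prodBilin_two]
      rfl
    · refine ⟨_, Submodule.subset_span ⟨Equiv.swap (⟨1, by norm_num⟩ : Fin (2 * 2))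
        ⟨2, by norm_num⟩, ![β, γ], hfin β γ hβ hγ, rfl⟩, fun x y z w => ?_⟩
      rw [MultilinearMap.domDomCongr_apply, prodBilin_two]
      have e0 : Equiv.swap (⟨1, by norm_num⟩ : Fin (2 * 2)) ⟨2, by norm_num⟩ ⟨0, by norm_num⟩ =
        ⟨0, by norm_num⟩ := by decide
      have e1 : Equiv.swap (⟨1, by norm_num⟩ : Fin (2 * 2)) ⟨2, by norm_num⟩ ⟨1, by norm_num⟩ =
        ⟨2, by norm_num⟩ := by decide
      have e2 : Equiv.swap (⟨1, by norm_num⟩ : Fin (2 * 2)) ⟨2, by norm_num⟩ ⟨2, by norm_num⟩ =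
        ⟨1, by norm_num⟩ := by decide
      have e3 : Equiv.swap (⟨1, by norm_num⟩ : Fin (2 * 2)) ⟨2, by norm_num⟩ ⟨3, by norm_num⟩ =
        ⟨3, by norm_num⟩ := by decide
      rw [e0, e1, e2, e3]
      rfl
    · refine ⟨_, Submodule.subset_span ⟨Equiv.swap (⟨1, by norm_num⟩ : Fin (2 * 2))
        ⟨3, by norm_num⟩ * Equiv.swap (⟨2, by norm_num⟩ : Fin (2 * 2)) ⟨3, by norm_num⟩,
        ![β, γ], hfin β γ hβ hγ, rfl⟩, fun x y z w => ?_⟩
      rw [MultilinearMap.domDomCongr_apply, prodBilin_two]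
      have e0 : (Equiv.swap (⟨1, by norm_num⟩ : Fin (2 * 2)) ⟨3, by norm_num⟩ *
        Equiv.swap (⟨2, by norm_num⟩ : Fin (2 * 2)) ⟨3, by norm_num⟩) ⟨0, by norm_num⟩ =
        ⟨0, by norm_num⟩ := by decide
      have e1 : (Equiv.swap (⟨1, by norm_num⟩ : Fin (2 * 2)) ⟨3, by norm_num⟩ *
        Equiv.swap (⟨2, by norm_num⟩ : Fin (2 * 2)) ⟨3, by norm_num⟩) ⟨1, by norm_num⟩ =
        ⟨3, by norm_num⟩ := by decide
      have e2 : (Equiv.swap (⟨1, by norm_num⟩ : Fin (2 * 2)) ⟨3, by norm_num⟩ *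
        Equiv.swap (⟨2, by norm_num⟩ : Fin (2 * 2)) ⟨3, by norm_num⟩) ⟨2, by norm_num⟩ =
        ⟨1, by norm_num⟩ := by decide
      have e3 : (Equiv.swap (⟨1, by norm_num⟩ : Fin (2 * 2)) ⟨3, by norm_num⟩ *
        Equiv.swap (⟨2, by norm_num⟩ : Fin (2 * 2)) ⟨3, by norm_num⟩) ⟨3, by norm_num⟩ =
        ⟨2, by norm_num⟩ := by decide
      rw [e0, e1, e2, e3]
      rfl
  | zero => exact ⟨0, Submodule.zero_mem _, fun _ _ _ _ => rfl⟩
  | add F G _ _ hF hG =>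
    obtain ⟨M, hM, hMF⟩ := hF
    obtain ⟨N, hN, hNG⟩ := hG
    refine ⟨M + N, Submodule.add_mem _ hM hN, fun x y z w => ?_⟩
    show M _ + N _ = F x y z w + G x y z w
    rw [hMF, hNG]
  | smul c F _ hF =>
    obtain ⟨M, hM, hMF⟩ := hF
    refine ⟨c • M, Submodule.smul_mem _ c hM, fun x y z w => ?_⟩
    show c * M _ = c * F x y z w
    rw [hMF]

lemma mem_of_S4 (α : MultilinearMap ℂ (fun _ : Fin (2 * 2) => W) ℂ)
    (h : (fun x y z w => α (q4 x y z w)) ∈ S4 B) :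
    α ∈ Submodule.span ℂ {M : MultilinearMap ℂ (fun _ : Fin (2 * 2) => W) ℂ |
      ∃ (π : Equiv.Perm (Fin (2 * 2))) (β : Fin 2 → (W →ₗ[ℂ] W →ₗ[ℂ] ℂ)),
        (∀ a, β a ∈ B) ∧ M = (prodBilin β).domDomCongr π} := by
  obtain ⟨M, hM, hMF⟩ := S4.exists_form h
  have h1 : α = M := by
    apply MultilinearMap.ext
    intro v
    rw [q4_eq v, hMF]
  rw [h1]
  exact hM

end

end Pool.Agent.Helper8
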