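import Pool.Agent.Helper8.J.Places
import Pool.Agent.Helper8.J.Four

/-!
Decomposition of a form of degree four according to the places of the four slots.
-/

namespace Pool.Agent.Helper8

open Module NumberField Pool.Agent.Helper7

attribute [local instance 100] LieRing.ofAssociativeRing

/-- the summands of the first homology -/
abbrev At {I : Type} (n : I → ℕ) (K : I → Type) [∀ i, Field (K i)] : Type :=
  Σ i, Fin (n i) × (K i →+* ℂ)

/-- the place of a summand -/
abbrev pl {I : Type} {n : I → ℕ} {K : I → Type} [∀ i, Field (K i)] (a : At n K) :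
    Σ i, (K i →+* ℂ) := ⟨a.1, a.2.2⟩

section q4
variable {W : Type*} [AddCommGroup W] [Module ℂ W]

omit [AddCommGroup W] [Module ℂ W] in
lemma update_q4_0 (x y z w x' : W) : Function.update (q4 x y z w) (⟨0, by norm_num⟩ : Fin (2 * 2)) x' =
    q4 x' y z w := by
  funext ⟨r, hr⟩
  have h : r = 0 ∨ r = 1 ∨ r = 2 ∨ r = 3 := by omega
  rcases h with rfl | rfl | rfl | rfl <;> simp [q4, Function.update]

omit [AddCommGroup W] [Module ℂ W] in
lemma update_q4_1 (x y z w x' : W) : Function.update (q4 x y z w) (⟨1, by norm_num⟩ : Fin (2 * 2)) x' =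
    q4 x x' z w := by
  funext ⟨r, hr⟩
  have h : r = 0 ∨ r = 1 ∨ r = 2 ∨ r = 3 := by omega
  rcases h with rfl | rfl | rfl | rfl <;> simp [q4, Function.update]

omit [AddCommGroup W] [Module ℂ W] in
lemma update_q4_2 (x y z w x' : W) : Function.update (q4 x y z w) (⟨2, by norm_num⟩ : Fin (2 * 2)) x' =
    q4 x y x' w := by
  funext ⟨r, hr⟩
  have h : r = 0 ∨ r = 1 ∨ r = 2 ∨ r = 3 := by omega
  rcases h with rfl | rfl | rfl | rfl <;> simp [q4, Function.update]

omit [AddCommGroup W] [Module ℂ W] in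
lemma update_q4_3 (x y z w x' : W) : Function.update (q4 x y z w) (⟨3, by norm_num⟩ : Fin (2 * 2)) x' =
    q4 x y z x' := by
  funext ⟨r, hr⟩
  have h : r = 0 ∨ r = 1 ∨ r = 2 ∨ r = 3 := by omega
  rcases h with rfl | rfl | rfl | rfl <;> simp [q4, Function.update]

lemma ml4_q4 (α : MultilinearMap ℂ (fun _ : Fin (2 * 2) => W) ℂ) :
    ML4 (fun x y z w => α (q4 x y z w)) where
  l1 y z w := by
    constructor
    · intro a b
      have h := α.map_update_add (q4 0 y z w) ⟨0, by norm_num⟩ a b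
      simp only [update_q4_0] at h
      exact h
    · intro c a
      have h := α.map_update_smul (q4 0 y z w) ⟨0, by norm_num⟩ c a
      simp only [update_q4_0] at h
      exact h
  l2 y z w := by
    constructor
    · intro a b
      have h := α.map_update_add (q4 y 0 z w) ⟨1, by norm_num⟩ a b
      simp only [update_q4_1] at h
      exact h
    · intro c a
      have h := α.map_update_smul (q4 y 0 z w) ⟨1, by norm_num⟩ c a
      simp only [update_q4_1] at h
      exact h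
  l3 y z w := by
    constructor
    · intro a b
      have h := α.map_update_add (q4 y z 0 w) ⟨2, by norm_num⟩ a b
      simp only [update_q4_2] at h
      exact h
    · intro c a
      have h := α.map_update_smul (q4 y z 0 w) ⟨2, by norm_num⟩ c a
      simp only [update_q4_2] at h
      exact h
  l4 y z w := by
    constructor
    · intro a b
      have h := α.map_update_add (q4 y z w 0) ⟨3, by norm_num⟩ a b
      simp only [update_q4_3] at h
      exact h
    · intro c a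
      have h := α.map_update_smul (q4 y z w 0) ⟨3, by norm_num⟩ c a
      simp only [update_q4_3] at h
      exact h

lemma actForm_q4 (T : Module.End ℂ W) (α : MultilinearMap ℂ (fun _ : Fin (2 * 2) => W) ℂ)
    (x y z w : W) : actForm T α (q4 x y z w) = α (q4 (T x) y z w) + α (q4 x (T y) z w) +
      α (q4 x y (T z) w) + α (q4 x y z (T w)) := by
  rw [actForm_apply]
  have h1 : ∀ f : Fin (2 * 2) → ℂ, ∑ r, f r = f ⟨0, by norm_num⟩ + f ⟨1, by norm_num⟩ +
    f ⟨2, by norm_num⟩ + f ⟨3, by norm_num⟩ := fun f => Fin.sum_univ_four f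
  rw [h1, update_q4_0, update_q4_1, update_q4_2, update_q4_3]
  rfl

/-- composition of a function linear in each variable with linear maps -/
lemma ML4.comp {V1 V2 V3 V4 : Type*} [AddCommGroup V1] [Module ℂ V1] [AddCommGroup V2]
    [Module ℂ V2] [AddCommGroup V3] [Module ℂ V3] [AddCommGroup V4] [Module ℂ V4]
    {G : W → W → W → W → ℂ} (hG : ML4 G) (f1 : V1 →ₗ[ℂ] W) (f2 : V2 →ₗ[ℂ] W) (f3 : V3 →ₗ[ℂ] W)
    (f4 : V4 →ₗ[ℂ] W) : ML4 (fun x y z w => G (f1 x) (f2 y) (f3 z) (f4 w)) where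
  l1 y z w := ((hG.l1 (f2 y) (f3 z) (f4 w)).mk' _ |>.comp f1).isLinear
  l2 x z w := ((hG.l2 (f1 x) (f3 z) (f4 w)).mk' _ |>.comp f2).isLinear
  l3 x y w := ((hG.l3 (f1 x) (f2 y) (f4 w)).mk' _ |>.comp f3).isLinear
  l4 x y z := ((hG.l4 (f1 x) (f2 y) (f3 z)).mk' _ |>.comp f4).isLinear

end q4

section
variable {I : Type} (n : I → ℕ)
  {κ : I → Type} [∀ i, Fintype (κ i)] [∀ i, DecidableEq (κ i)] {ϖ : ℂ}
  {P : ∀ i, PData (κ i) ϖ}
  {K : I → Type} [∀ i, Field (K i)] [∀ i, NumberField (K i)] (F : JF P K)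

namespace JF

/-- the projection to an eigenspace -/
noncomputable def pV (t : Σ i, (K i →+* ℂ)) : (κ t.1 → ℂ) →ₗ[ℂ] F.V t :=
  (proj (F.rho t.1) t.2).codRestrict (F.V t) (fun v => F.proj_mem t v)

lemma pV_coe (t : Σ i, (K i →+* ℂ)) (v : κ t.1 → ℂ) :
    ((F.pV t v : F.V t) : κ t.1 → ℂ) = proj (F.rho t.1) t.2 v := rfl

lemma pV_of_mem (t : Σ i, (K i →+* ℂ)) (v : F.V t) : F.pV t v = v :=
  Subtype.ext (F.proj_of_mem t v.2)

/-- the action of a symmetry on an eigenspace -/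
noncomputable def D (X : GG κ) (t : Σ i, (K i →+* ℂ)) : Module.End ℂ (F.V t) :=
  F.pV t ∘ₗ X.1 t.1 ∘ₗ (F.V t).subtype

open Classical in
/-- the scalar part of the action -/
noncomputable def wt (t : Σ i, (K i →+* ℂ)) (X : GG κ) : ℂ :=
  if h : F.re t.1 then X.2 / 2 else (F.C t.1 h).mat t.2 (X.1 t.1) 0 0

lemma wt_re (t : Σ i, (K i →+* ℂ)) (h : F.re t.1) (X : GG κ) : F.wt t X = X.2 / 2 := by
  rw [wt, dif_pos h]

lemma wt_cm (t : Σ i, (K i →+* ℂ)) (h : ¬ F.re t.1) (X : GG κ) :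
    F.wt t X = (F.C t.1 h).mat t.2 (X.1 t.1) 0 0 := by
  rw [wt, dif_neg h]

variable [DecidableEq I]

/-- inclusion of a summand -/
noncomputable def inc (a : At n K) : F.V (pl a) →ₗ[ℂ] HW κ n :=
  slotL n a.1 a.2.1 ∘ₗ (F.V (pl a)).subtype

/-- projection to a summand -/
noncomputable def prj (a : At n K) : HW κ n →ₗ[ℂ] F.V (pl a) := F.pV (pl a) ∘ₗ prL n a.1 a.2.1

omit [DecidableEq I] in
lemma prj_coe (a : At n K) (v : HW κ n) :
    (F.prj n a v).1 = proj (F.rho a.1) a.2.2 (v a.1 a.2.1) := rfl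

lemma inc_apply (a : At n K) (x : F.V (pl a)) : F.inc n a x = slotL n a.1 a.2.1 x.1 := rfl

lemma sum_inc_prj [Fintype I] (v : HW κ n) : ∑ a : At n K, F.inc n a (F.prj n a v) = v := by
  conv_rhs => rw [← sum_slot n v]
  rw [Fintype.sum_sigma]
  refine Finset.sum_congr rfl fun i _ => ?_
  rw [Fintype.sum_prod_type]
  refine Finset.sum_congr rfl fun m _ => ?_
  have h1 : v i m = ∑ σ : K i →+* ℂ, proj (F.rho i) σ (v i m) := by
    rw [← LinearMap.sum_apply, sum_proj]; rfl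
  conv_rhs => rw [h1]
  rw [map_sum]
  rfl

variable {k : ℕ} (α : MultilinearMap ℂ (fun _ : Fin (2 * k) => HW κ n) ℂ)

omit [DecidableEq I] in
lemma D_coe {X : GG κ} (hX : IsInv n P α X) (t : Σ i, (K i →+* ℂ)) (v : F.V t) :
    ((F.D X t v : F.V t) : κ t.1 → ℂ) = X.1 t.1 v :=
  F.proj_of_mem t (isInv_V n F α hX t v.2)

lemma lift_inc {X : GG κ} (hX : IsInv n P α X) (a : At n K) (x : F.V (pl a)) :
    lift n X.1 (F.inc n a x) = F.inc n a (F.D X (pl a) x) := by
  rw [inc_apply, lift_slot, inc_apply, F.D_coe n α hX]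

omit [DecidableEq I] in
lemma prj_lift {X : GG κ} (hX : IsInv n P α X) (a : At n K) (v : HW κ n) :
    F.prj n a (lift n X.1 v) = F.D X (pl a) (F.prj n a v) := by
  apply Subtype.ext
  rw [F.D_coe n α hX, prj_coe, prj_coe, lift_apply]
  exact (isInv_proj n F α hX (pl a) _).symm

/-- the element of the Lie algebra given by a symmetry -/
noncomputable def mkL {X : GG κ} (hX : IsInv n P α X) : F.L n α :=
  ⟨F.phi X, (F.mem_L n α _).mpr ⟨X, hX, rfl⟩⟩

omit [DecidableEq I] in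
lemma exists_mkL (x : F.L n α) : ∃ (X : GG κ) (hX : IsInv n P α X), x = F.mkL n α hX := by
  obtain ⟨X, hX, hx⟩ := (F.mem_L n α x.1).mp x.2
  exact ⟨X, hX, Subtype.ext hx.symm⟩

omit [DecidableEq I] in
/-- vectors of the eigenspaces of fields with complex multiplication -/
lemma cm_vec (t : Σ i, (K i →+* ℂ)) (h : ¬ F.re t.1) (v : F.V t) :
    (v : κ t.1 → ℂ) = (F.C t.1 h).lf.co t.2 0 v • (F.C t.1 h).e t.2 0 := by
  have h1 := F.proj_of_mem t v.2
  rw [F.rho_cm t.1 h, (F.C t.1 h).proj_eq, Fin.sum_univ_two, (F.C t.1 h).e_one (F.hC t.1 h),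
    smul_zero, add_zero] at h1
  exact h1.symm

omit [DecidableEq I] in
lemma D_eq {X : GG κ} (hX : IsInv n P α X) (t : Σ i, (K i →+* ℂ)) (v : F.V t) :
    F.D X t v = ⁅F.mkL n α hX, v⁆ + F.wt t X • v := by
  apply Subtype.ext
  rw [F.D_coe n α hX, Submodule.coe_add, Submodule.coe_smul, F.lie_coe]
  show X.1 t.1 v = (F.phi X t.1) v + _
  by_cases h : F.re t.1
  · rw [F.phi_re _ _ h, F.wt_re _ h]
    simp
  · rw [F.phi_cm _ _ h, F.wt_cm _ h, LinearMap.zero_apply, zero_add]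
    have hc : (F.C t.1 h).Comm (X.1 t.1) := fun x v => hX.comm t.1 t.1 _ ((F.C t.1 h).hρ x) v
    conv_lhs => rw [F.cm_vec t h v]
    rw [map_smul, hc.act, Fin.sum_univ_two, (F.C t.1 h).e_one (F.hC t.1 h), smul_zero, add_zero]
    conv_rhs => rw [F.cm_vec t h v]
    rw [smul_comm]

omit [DecidableEq I] in
lemma wt_bracket {X Y : GG κ} (hX : IsInv n P α X) (hY : IsInv n P α Y)
    (t : Σ i, (K i →+* ℂ)) : F.wt t (X * Y - Y * X) = 0 := by
  by_cases h : F.re t.1
  · rw [F.wt_re _ h]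
    show (X.2 * Y.2 - Y.2 * X.2) / 2 = 0
    ring
  · rw [F.wt_cm _ h]
    have hX' : (F.C t.1 h).Comm (X.1 t.1) := fun x v => hX.comm t.1 t.1 _ ((F.C t.1 h).hρ x) v
    have hY' : (F.C t.1 h).Comm (Y.1 t.1) := fun x v => hY.comm t.1 t.1 _ ((F.C t.1 h).hρ x) v
    show (F.C t.1 h).mat t.2 (X.1 t.1 * Y.1 t.1 - Y.1 t.1 * X.1 t.1) 0 0 = 0
    rw [map_sub, Matrix.sub_apply, hX'.mat_mul0 hY' (F.hC t.1 h), hY'.mat_mul0 hX' (F.hC t.1 h),
      mul_comm, sub_self]

omit [DecidableEq I] in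
lemma mkL_bracket {X Y : GG κ} (hX : IsInv n P α X) (hY : IsInv n P α Y) :
    ⁅F.mkL n α hX, F.mkL n α hY⁆ = F.mkL n α (IsInv.bracket n P α hX hY) := by
  apply Subtype.ext
  funext i
  exact (F.phi_bracket X Y i).symm

end JF

end

end Pool.Agent.Helper8
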