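import Pool.Agent.Helper8.J.Slots
import Pool.Agent.Helper8.J.Parity
import Pool.Agent.Helper8.J.Even

/-!
Functions of four vectors of eigenspaces which are combinations of products of invariant pairings.
-/

namespace Pool.Agent.Helper8

open Module NumberField Pool.Agent.Helper7

attribute [local instance 100] LieRing.ofAssociativeRing

section
variable {I : Type} (n : I → ℕ)
  {κ : I → Type} [∀ i, Fintype (κ i)] [∀ i, DecidableEq (κ i)] {ϖ : ℂ}
  {P : ∀ i, PData (κ i) ϖ}
  {K : I → Type} [∀ i, Field (K i)] [∀ i, NumberField (K i)] (F : JF P K)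
  [DecidableEq I] (α : MultilinearMap ℂ (fun _ : Fin (2 * 2) => HW κ n) ℂ)

namespace JF

/-- pull-back to the whole space -/
noncomputable def pull (a b c d : At n K) :
    (F.V (pl a) → F.V (pl b) → F.V (pl c) → F.V (pl d) → ℂ) →ₗ[ℂ]
      (HW κ n → HW κ n → HW κ n → HW κ n → ℂ) where
  toFun G x y z w := G (F.prj n a x) (F.prj n b y) (F.prj n c z) (F.prj n d w)
  map_add' _ _ := rfl
  map_smul' _ _ := rfl

/-- combinations of products of invariant pairings -/
noncomputable def DV (a b c d : At n K) :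
    Submodule ℂ (F.V (pl a) → F.V (pl b) → F.V (pl c) → F.V (pl d) → ℂ) :=
  (S4 (invB n P α)).comap (F.pull n a b c d)

lemma DV.m1 {a b c d : At n K} {f : F.V (pl a) → F.V (pl b) → ℂ}
    {g : F.V (pl c) → F.V (pl d) → ℂ} (hf : F.IP n α a b f) (hg : F.IP n α c d g) :
    (fun x y z w => f x y * g z w) ∈ F.DV n α a b c d := by
  obtain ⟨β, hβ, hβf⟩ := hf.exists_form
  obtain ⟨γ, hγ, hγg⟩ := hg.exists_form
  have h1 := S4.m1 hβ hγ
  simp only [hβf, hγg] at h1
  exact h1

lemma DV.m2 {a b c d : At n K} {f : F.V (pl a) → F.V (pl c) → ℂ}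
    {g : F.V (pl b) → F.V (pl d) → ℂ} (hf : F.IP n α a c f) (hg : F.IP n α b d g) :
    (fun x y z w => f x z * g y w) ∈ F.DV n α a b c d := by
  obtain ⟨β, hβ, hβf⟩ := hf.exists_form
  obtain ⟨γ, hγ, hγg⟩ := hg.exists_form
  have h1 := S4.m2 hβ hγ
  simp only [hβf, hγg] at h1
  exact h1

lemma DV.m3 {a b c d : At n K} {f : F.V (pl a) → F.V (pl d) → ℂ}
    {g : F.V (pl b) → F.V (pl c) → ℂ} (hf : F.IP n α a d f) (hg : F.IP n α b c g) :
    (fun x y z w => f x w * g y z) ∈ F.DV n α a b c d := by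
  obtain ⟨β, hβ, hβf⟩ := hf.exists_form
  obtain ⟨γ, hγ, hγg⟩ := hg.exists_form
  have h1 := S4.m3 hβ hγ
  simp only [hβf, hγg] at h1
  exact h1

/-- the symplectic form as invariant pairing of two summands with the same place -/
lemma IP_om (a : At n K) (ha : F.re a.1) :
    F.IP n α a a (fun x y => F.om (pl a) x y) :=
  IP.of_inv n F α ha ha (ML2.of _) (fun u x y => by
    have h := (F.symp n α (pl a) ha).inv u x y
    show F.om (pl a) ⁅u, x⁆ y + F.om (pl a) x ⁅u, y⁆ = 0
    rw [h, neg_add_cancel])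

lemma S_iff (a b c d : At n K) : F.S n α a b c d ↔ F.G n α a b c d ∈ F.DV n α a b c d := Iff.rfl

lemma DV_of_fun {a b c d : At n K}
    {G : F.V (pl a) → F.V (pl b) → F.V (pl c) → F.V (pl d) → ℂ} (hG : G ∈ F.DV n α a b c d)
    (h : ∀ x y z w, F.G n α a b c d x y z w = G x y z w) : F.S n α a b c d := by
  rw [S_iff]
  have h1 : F.G n α a b c d = G := by
    funext x y z w
    exact h x y z w
  rw [h1]
  exact hG

end JF

end

end Pool.Agent.Helper8
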