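import Mathlib

/-!
Sorting of four slots.
-/

namespace Pool.Agent.Helper8

section
variable {T : Type*} {S : T → T → T → T → Prop}
  (s1 : ∀ a b c d, S a b c d → S b a c d)
  (s2 : ∀ a b c d, S a b c d → S a c b d)
  (s3 : ∀ a b c d, S a b c d → S a b d c)
include s1 s2 s3

/-- sorting by a predicate -/
theorem sort_pred (R : T → Prop)
    (h4 : ∀ a b c d, R a → R b → R c → R d → S a b c d)
    (h3 : ∀ a b c d, R a → R b → R c → ¬ R d → S a b c d)
    (h2 : ∀ a b c d, R a → R b → ¬ R c → ¬ R d → S a b c d)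
    (h1 : ∀ a b c d, R a → ¬ R b → ¬ R c → ¬ R d → S a b c d)
    (h0 : ∀ a b c d, ¬ R a → ¬ R b → ¬ R c → ¬ R d → S a b c d)
    (a b c d : T) : S a b c d := by
  by_cases ha : R a
  · by_cases hb : R b
    · by_cases hc : R c
      · by_cases hd : R d
        · exact h4 a b c d ha hb hc hd
        · exact h3 a b c d ha hb hc hd
      · by_cases hd : R d
        · exact s3 _ _ _ _ (h3 a b d c ha hb hd hc)
        · exact h2 a b c d ha hb hc hd
    · by_cases hc : R c
      · by_cases hd : R d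
        · exact s2 _ _ _ _ (s3 _ _ _ _ (h3 a c d b ha hc hd hb))
        · exact s2 _ _ _ _ (h2 a c b d ha hc hb hd)
      · by_cases hd : R d
        · exact s3 _ _ _ _ (s2 _ _ _ _ (h2 a d b c ha hd hb hc))
        · exact h1 a b c d ha hb hc hd
  · by_cases hb : R b
    · by_cases hc : R c
      · by_cases hd : R d
        · exact s1 _ _ _ _ (s2 _ _ _ _ (s3 _ _ _ _ (h3 b c d a hb hc hd ha)))
        · exact s1 _ _ _ _ (s2 _ _ _ _ (h2 b c a d hb hc ha hd))
      · by_cases hd : R d
        · exact s1 _ _ _ _ (s3 _ _ _ _ (s2 _ _ _ _ (h2 b d a c hb hd ha hc)))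
        · exact s1 _ _ _ _ (h1 b a c d hb ha hc hd)
    · by_cases hc : R c
      · by_cases hd : R d
        · exact s2 _ _ _ _ (s1 _ _ _ _ (s3 _ _ _ _ (s2 _ _ _ _ (h2 c d a b hc hd ha hb))))
        · exact s2 _ _ _ _ (s1 _ _ _ _ (h1 c a b d hc ha hb hd))
      · by_cases hd : R d
        · exact s3 _ _ _ _ (s2 _ _ _ _ (s1 _ _ _ _ (h1 d a b c hd ha hb hc)))
        · exact h0 a b c d ha hb hc hd

/-- sorting by coincidences -/
theorem sort_eq
    (hA : ∀ a, S a a a a)
    (hB : ∀ a b, a ≠ b → S a a a b)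
    (hC : ∀ a b, a ≠ b → S a a b b)
    (hD : ∀ a b c, a ≠ b → a ≠ c → b ≠ c → S a a b c)
    (hE : ∀ a b c d, a ≠ b → a ≠ c → a ≠ d → b ≠ c → b ≠ d → c ≠ d → S a b c d)
    (a b c d : T) : S a b c d := by
  -- two equal entries in front
  have key : ∀ a c d, S a a c d := by
    intro a c d
    by_cases hc : a = c
    · subst hc
      by_cases hd : a = d
      · subst hd; exact hA a
      · exact hB a d hd
    · by_cases hd : a = d
      · subst hd; exact s3 _ _ _ _ (hB a c hc)
      · by_cases hcd : c = d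
        · subst hcd; exact hC a c hc
        · exact hD a c d hc hd hcd
  by_cases hab : a = b
  · subst hab; exact key a c d
  by_cases hac : a = c
  · subst hac; exact s2 _ _ _ _ (key a b d)
  by_cases had : a = d
  · subst had; exact s3 _ _ _ _ (s2 _ _ _ _ (key a b c))
  by_cases hbc : b = c
  · subst hbc; exact s1 _ _ _ _ (s2 _ _ _ _ (key b a d))
  by_cases hbd : b = d
  · subst hbd; exact s1 _ _ _ _ (s3 _ _ _ _ (s2 _ _ _ _ (key b a c)))
  by_cases hcd : c = d
  · subst hcd; exact s2 _ _ _ _ (s1 _ _ _ _ (s3 _ _ _ _ (s2 _ _ _ _ (key c a b))))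
  exact hE a b c d hab hac had hbc hbd hcd

end

end Pool.Agent.Helper8
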