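import Pool.Agent.Helper8.J.DV
import Pool.Agent.Helper8.J.Sort
import Pool.Agent.Helper8.Lie.P4Final
import Pool.Agent.Helper8.Lie.PMixed
import Pool.Agent.Helper8.Lie.PMixed2
import Pool.Agent.Helper8.Lie.P22
import Pool.Agent.Helper8.Lie.P1111

/-!
Forms of degree four: the components with four slots of real type.
-/

namespace Pool.Agent.Helper8

open Module NumberField Pool.Agent.Helper7

attribute [local instance 100] LieRing.ofAssociativeRing

section
variable {I : Type} [Fintype I] [DecidableEq I] (n : I → ℕ)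
  {κ : I → Type} [∀ i, Fintype (κ i)] [∀ i, DecidableEq (κ i)] {ϖ : ℂ}
  {P : ∀ i, PData (κ i) ϖ}
  {K : I → Type} [∀ i, Field (K i)] [∀ i, NumberField (K i)] (F : JF P K)
  (α : MultilinearMap ℂ (fun _ : Fin (2 * 2) => HW κ n) ℂ)
  (hϖ : ϖ ≠ 0)
  (hB : ∀ v : Fin (2 * 2) → HW κ n, (∀ r, IsRatP n P (v r)) → ∃ q : ℚ, α v = ϖ ^ 2 * q)
  (hA : ∀ v : Fin (2 * 2) → HW κ n, (∀ r i m j, IsAlgebraic ℚ (v r i m j)) →
      IsAlgebraic ℚ (α v))
  (a1 : ∀ x y z w, α (q4 y x z w) = - α (q4 x y z w))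
  (a2 : ∀ x y z w, α (q4 x z y w) = - α (q4 x y z w))
  (a3 : ∀ x y z w, α (q4 x y w z) = - α (q4 x y z w))

namespace JF

omit [Fintype I] [DecidableEq I] in
/-- dimensions of the eigenspaces of real type -/
lemma dim_good (t : Σ i, (K i →+* ℂ)) (h : F.Good t) :
    Even (finrank ℂ (F.V t)) ∧ 2 ≤ finrank ℂ (F.V t) := by
  have hpos : 0 < finrank ℂ (F.V t) := by
    have : Nontrivial (F.V t) := by
      rw [Submodule.nontrivial_iff_ne_bot]; exact h.2
    exact finrank_pos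
  have hnd : ∀ x, (∀ y, F.om t x y = 0) → x = 0 := by
    intro x hx
    apply Subtype.ext
    apply (P t.1).hψnd
    intro v
    have h1 := hx ⟨_, F.proj_mem t v⟩
    rw [F.om_apply] at h1
    rw [← F.proj_of_mem t x.2, F.psi_proj t h.1]
    exact h1
  have heven := even_of_symp (F.om t) (fun x y => (P t.1).hψalt x y) hnd
  refine ⟨heven, ?_⟩
  obtain ⟨j, hj⟩ := heven
  omega

include hϖ hB hA a1 a2 a3 in
lemma S_aaaa (a : At n K) (ha : F.Good (pl a)) (hd : finrank ℂ (F.V (pl a)) ≤ 8) :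
    F.S n α a a a a := by
  have hk := F.killing n α hϖ hB hA
  obtain ⟨p⟩ := exists_principal (F.L n α)
  have hirr := F.irr n α hϖ hB hA (pl a) ha
  have hs := F.symp n α (pl a) ha.1
  obtain ⟨he, h2⟩ := F.dim_good (pl a) ha
  have hdim : finrank ℂ (F.V (pl a)) = 2 ∨ finrank ℂ (F.V (pl a)) = 4 ∨
      finrank ℂ (F.V (pl a)) = 6 ∨ finrank ℂ (F.V (pl a)) = 8 := by
    obtain ⟨j, hj⟩ := he
    omega
  obtain ⟨c, hc⟩ := P4 p hs hdim (F.G_ml n α a a a a) (F.G_inv n α hk a a a a)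
    (F.G_alt1 n α a1 a a a) (F.G_alt2 n α a2 a a a) (F.G_alt3 n α a3 a a a)
  have hip := F.IP_om n α a ha.1
  refine F.DV_of_fun n α (Submodule.smul_mem _ c (Submodule.add_mem _ (Submodule.sub_mem _
    (DV.m1 n F α hip hip) (DV.m2 n F α hip hip)) (DV.m3 n F α hip hip))) ?_
  intro x y z w
  rw [hc]
  rfl

include hϖ hB hA a1 a2 in
lemma S_aaab (a b : At n K) (ha : F.Good (pl a)) (hb : F.Good (pl b))
    (hd : finrank ℂ (F.V (pl a)) + finrank ℂ (F.V (pl b)) ≤ 8) :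
    F.S n α a a a b := by
  have hk := F.killing n α hϖ hB hA
  obtain ⟨p⟩ := exists_principal (F.L n α)
  have hirr := F.irr n α hϖ hB hA (pl a) ha
  have hirrb := F.irr n α hϖ hB hA (pl b) hb
  have hs := F.symp n α (pl a) ha.1
  have hsb := F.symp n α (pl b) hb.1
  obtain ⟨⟨j, hj⟩, h2⟩ := F.dim_good (pl a) ha
  obtain ⟨⟨j', hj'⟩, h2'⟩ := F.dim_good (pl b) hb
  have hdim : finrank ℂ (F.V (pl a)) = 2 ∨ finrank ℂ (F.V (pl a)) = 4 ∨
      (finrank ℂ (F.V (pl a)) = 6 ∧ finrank ℂ (F.V (pl b)) = 2) := by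
    omega
  have hG := F.G_ml n α a a a b
  have hI := F.G_inv n α hk a a a b
  have b1 := F.G_alt1 n α a1 a a b
  have b2 := F.G_alt2 n α a2 a a b
  rcases hdim with h | h | ⟨h, h'⟩
  · exact F.S_of_zero n α _ _ _ _ (P31_two p hs h hG b1 b2)
  · obtain ⟨β, hβ, hβI, hGβ⟩ := P31_four p hs h hG hI b1 b2
    have hip := F.IP_om n α a ha.1
    have hip' := IP.of_inv n F α ha.1 hb.1 hβ hβI
    refine F.DV_of_fun n α (Submodule.add_mem _ (Submodule.sub_mem _
      (DV.m1 n F α hip hip') (DV.m2 n F α hip hip')) (DV.m3 n F α hip' hip)) ?_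
    intro x y z w
    rw [hGβ, ext31, mul_comm (F.om (pl a) y z)]
    rfl
  · exact F.S_of_zero n α _ _ _ _ (P31_six p hs hsb h h' hG hI b1 b2)

include hϖ hB hA a1 a3 in
lemma S_aabb (a b : At n K) (ha : F.Good (pl a)) (hb : F.Good (pl b))
    (hd : finrank ℂ (F.V (pl a)) + finrank ℂ (F.V (pl b)) ≤ 8) :
    F.S n α a a b b := by
  have hk := F.killing n α hϖ hB hA
  obtain ⟨p⟩ := exists_principal (F.L n α)
  have hirr := F.irr n α hϖ hB hA (pl a) ha
  have hirrb := F.irr n α hϖ hB hA (pl b) hb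
  have hs := F.symp n α (pl a) ha.1
  have hsb := F.symp n α (pl b) hb.1
  obtain ⟨⟨j, hj⟩, h2⟩ := F.dim_good (pl a) ha
  obtain ⟨⟨j', hj'⟩, h2'⟩ := F.dim_good (pl b) hb
  have hdim : finrank ℂ (F.V (pl a)) = 2 ∨ finrank ℂ (F.V (pl b)) = 2 ∨
      (finrank ℂ (F.V (pl a)) = 4 ∧ finrank ℂ (F.V (pl b)) = 4) := by
    omega
  have hG := F.G_ml n α a a b b
  have hI := F.G_inv n α hk a a b b
  have b1 := F.G_alt1 n α a1 a b b
  have b3 := F.G_alt3 n α a3 b a a
  have hip := F.IP_om n α a ha.1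
  have hipb := F.IP_om n α b hb.1
  rcases hdim with h | h | ⟨h, h'⟩
  · obtain ⟨c, hc⟩ := P22_plane p hs hsb h hG hI b1
    refine F.DV_of_fun n α (Submodule.smul_mem _ c (DV.m1 n F α hip hipb)) ?_
    intro x y z w
    rw [hc]
    rfl
  · obtain ⟨c, hc⟩ := P22_plane' p hs hsb h hG hI b3
    refine F.DV_of_fun n α (Submodule.smul_mem _ c (DV.m1 n F α hip hipb)) ?_
    intro x y z w
    rw [hc]
    rfl
  · obtain ⟨c, c', β, hβ, hβI, hc⟩ := P22_four p hs hsb h h' hG hI b1 b3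
    have hip' := IP.of_inv n F α ha.1 hb.1 hβ hβI
    refine F.DV_of_fun n α (Submodule.add_mem _ (Submodule.smul_mem _ c (DV.m1 n F α hip hipb))
      (Submodule.smul_mem _ c' (Submodule.sub_mem _ (DV.m2 n F α hip' hip')
      (DV.m3 n F α hip' hip')))) ?_
    intro x y z w
    rw [hc]
    rfl

include hϖ hB hA a1 in
lemma S_aabc (a b c : At n K) (ha : F.Good (pl a)) (hb : F.Good (pl b)) (hc : F.Good (pl c))
    (hd : finrank ℂ (F.V (pl a)) + finrank ℂ (F.V (pl b)) + finrank ℂ (F.V (pl c)) ≤ 8) :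
    F.S n α a a b c := by
  have hk := F.killing n α hϖ hB hA
  obtain ⟨p⟩ := exists_principal (F.L n α)
  have hirr := F.irr n α hϖ hB hA (pl a) ha
  have hirrb := F.irr n α hϖ hB hA (pl b) hb
  have hirrc := F.irr n α hϖ hB hA (pl c) hc
  have hs := F.symp n α (pl a) ha.1
  have hsb := F.symp n α (pl b) hb.1
  have hsc := F.symp n α (pl c) hc.1
  obtain ⟨⟨j, hj⟩, h2⟩ := F.dim_good (pl a) ha
  obtain ⟨⟨j', hj'⟩, h2'⟩ := F.dim_good (pl b) hb
  obtain ⟨⟨j'', hj''⟩, h2''⟩ := F.dim_good (pl c) hc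
  have hdim : finrank ℂ (F.V (pl a)) = 2 ∨ (finrank ℂ (F.V (pl a)) = 4 ∧
      finrank ℂ (F.V (pl b)) = 2 ∧ finrank ℂ (F.V (pl c)) = 2) := by
    omega
  have hG := F.G_ml n α a a b c
  have hI := F.G_inv n α hk a a b c
  have b1 := F.G_alt1 n α a1 a b c
  have hip := F.IP_om n α a ha.1
  have key : ∃ γ : F.V (pl b) → F.V (pl c) → ℂ, ML2 γ ∧ Inv2 (F.L n α) γ ∧
      ∀ x y z w, F.G n α a a b c x y z w = F.om (pl a) x y * γ z w := by
    rcases hdim with h | ⟨h, h', h''⟩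
    · exact P211_plane p hs h hG hI b1
    · exact P211_four p hs hsb hsc h h' h'' hG hI b1
  obtain ⟨γ, hγ, hγI, hGγ⟩ := key
  exact F.DV_of_fun n α (DV.m1 n F α hip (IP.of_inv n F α hb.1 hc.1 hγ hγI)) hGγ

include hϖ hB hA in
lemma S_abcd (a b c d : At n K) (ha : F.Good (pl a)) (hb : F.Good (pl b)) (hc : F.Good (pl c))
    (hd : F.Good (pl d))
    (hdim : finrank ℂ (F.V (pl a)) + finrank ℂ (F.V (pl b)) + finrank ℂ (F.V (pl c)) +
      finrank ℂ (F.V (pl d)) ≤ 8) :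
    F.S n α a b c d := by
  have hk := F.killing n α hϖ hB hA
  obtain ⟨p⟩ := exists_principal (F.L n α)
  have hirr := F.irr n α hϖ hB hA (pl a) ha
  have hirrb := F.irr n α hϖ hB hA (pl b) hb
  have hirrc := F.irr n α hϖ hB hA (pl c) hc
  have hirrd := F.irr n α hϖ hB hA (pl d) hd
  have hs := F.symp n α (pl a) ha.1
  have hsb := F.symp n α (pl b) hb.1
  have hsc := F.symp n α (pl c) hc.1
  have hsd := F.symp n α (pl d) hd.1
  have e1 := (F.dim_good (pl a) ha).2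
  have e2 := (F.dim_good (pl b) hb).2
  have e3 := (F.dim_good (pl c) hc).2
  have e4 := (F.dim_good (pl d) hd).2
  have hG := F.G_ml n α a b c d
  have hI := F.G_inv n α hk a b c d
  obtain ⟨r, s, t, f12, f34, f13, f24, f14, f23, m12, m34, m13, m24, m14, m23, h1, h2, h3, hf⟩ :=
    P1111 p hs hsb hsc hsd (by omega) (by omega) (by omega) (by omega) hG hI
  have k1 : r • (fun x y z w => f12 x y * f34 z w) ∈ F.DV n α a b c d := by
    by_cases h0 : r = 0
    · rw [h0, zero_smul]; exact Submodule.zero_mem _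
    · exact Submodule.smul_mem _ _ (DV.m1 n F α (IP.of_inv n F α ha.1 hb.1 m12 (h1 h0).1)
        (IP.of_inv n F α hc.1 hd.1 m34 (h1 h0).2))
  have k2 : s • (fun x y z w => f13 x z * f24 y w) ∈ F.DV n α a b c d := by
    by_cases h0 : s = 0
    · rw [h0, zero_smul]; exact Submodule.zero_mem _
    · exact Submodule.smul_mem _ _ (DV.m2 n F α (IP.of_inv n F α ha.1 hc.1 m13 (h2 h0).1)
        (IP.of_inv n F α hb.1 hd.1 m24 (h2 h0).2))
  have k3 : t • (fun x y z w => f14 x w * f23 y z) ∈ F.DV n α a b c d := by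
    by_cases h0 : t = 0
    · rw [h0, zero_smul]; exact Submodule.zero_mem _
    · exact Submodule.smul_mem _ _ (DV.m3 n F α (IP.of_inv n F α ha.1 hd.1 m14 (h3 h0).1)
        (IP.of_inv n F α hb.1 hc.1 m23 (h3 h0).2))
  refine F.DV_of_fun n α (Submodule.add_mem _ (Submodule.add_mem _ k1 k2) k3) ?_
  intro x y z w
  rw [hf]
  rfl

end JF

end

end Pool.Agent.Helper8
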