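import Pool.Agent.Helper8.J.Setup

/-!
The modules given by the places of real type.
-/

namespace Pool.Agent.Helper8

open Module NumberField Pool.Agent.Helper7

attribute [local instance 100] LieRing.ofAssociativeRing

/-- infinitesimal isometries have trace zero -/
lemma trace_eq_zero_of_skew {V : Type*} [AddCommGroup V] [Module ℂ V] [FiniteDimensional ℂ V]
    (ω : V →ₗ[ℂ] V →ₗ[ℂ] ℂ) (nd : ∀ x, (∀ y, ω x y = 0) → x = 0) (T : Module.End ℂ V)
    (hT : ∀ x y, ω (T x) y = - ω x (T y)) : LinearMap.trace ℂ V T = 0 := by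
  have hinj : Function.Injective ω := by
    rw [← LinearMap.ker_eq_bot, LinearMap.ker_eq_bot']
    intro x hx
    exact nd x (fun y => by rw [hx]; rfl)
  let Φ : V ≃ₗ[ℂ] Module.Dual ℂ V := LinearEquiv.ofInjectiveOfFinrankEq ω hinj
    (Subspace.dual_finrank_eq).symm
  have h1 : Φ.conj T = - Module.Dual.transpose (R := ℂ) T := by
    apply LinearMap.ext
    intro f
    obtain ⟨x, rfl⟩ := Φ.surjective f
    apply LinearMap.ext
    intro y
    rw [LinearEquiv.conj_apply_apply, LinearEquiv.symm_apply_apply]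
    show ω (T x) y = - ω x (T y)
    exact hT x y
  have h2 : LinearMap.trace ℂ _ (Φ.conj T) = LinearMap.trace ℂ V T := LinearMap.trace_conj' T Φ
  rw [h1, map_neg, LinearMap.trace_transpose'] at h2
  linear_combination -h2 / 2

section
variable {I : Type} (n : I → ℕ)
  {κ : I → Type} [∀ i, Fintype (κ i)] [∀ i, DecidableEq (κ i)] {ϖ : ℂ}
  {P : ∀ i, PData (κ i) ϖ}
  {K : I → Type} [∀ i, Field (K i)] [∀ i, NumberField (K i)] (F : JF P K)
  {k : ℕ} (α : MultilinearMap ℂ (fun _ : Fin (2 * k) => HW κ n) ℂ)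

namespace JF

/-- places giving irreducible symplectic modules -/
def Good (t : Σ i, (K i →+* ℂ)) : Prop := F.re t.1 ∧ F.V t ≠ ⊥

/-- the symplectic form -/
noncomputable def om (t : Σ i, (K i →+* ℂ)) : F.V t →ₗ[ℂ] F.V t →ₗ[ℂ] ℂ :=
  (P t.1).ψ.compl₁₂ (F.V t).subtype (F.V t).subtype

lemma om_apply (t : Σ i, (K i →+* ℂ)) (x y : F.V t) : F.om t x y = (P t.1).ψ x y := rfl

lemma psi_proj (t : Σ i, (K i →+* ℂ)) (h : F.re t.1) (u v : κ t.1 → ℂ) :
    (P t.1).ψ (proj (F.rho t.1) t.2 u) v = (P t.1).ψ u (proj (F.rho t.1) t.2 v) := by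
  have h1 : ∀ x u v, (P t.1).ψ (F.rho t.1 x u) v = (P t.1).ψ u (F.rho t.1 x v) := by
    rw [F.rho_re t.1 h]
    exact (F.R t.1 h).hros
  rw [proj_apply, proj_apply, map_sum, map_sum, LinearMap.sum_apply]
  refine Finset.sum_congr rfl fun b _ => ?_
  rw [map_smul, map_smul, LinearMap.smul_apply, h1]

theorem symp (t : Σ i, (K i →+* ℂ)) (h : F.re t.1) : Symp (F.L n α) (F.om t) where
  alt x y := (P t.1).hψalt x y
  nd x hx := by
    apply Subtype.ext
    apply (P t.1).hψnd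
    intro v
    have h1 := hx ⟨_, F.proj_mem t v⟩
    rw [F.om_apply] at h1
    rw [← F.proj_of_mem t x.2, F.psi_proj t h]
    exact h1
  inv a x y := by
    obtain ⟨X, hX, hx⟩ := (F.mem_L n α a.1).mp a.2
    rw [F.om_apply, F.om_apply, F.lie_coe, F.lie_coe, ← hx, F.phi_re _ _ h]
    have h1 := hX.pol t.1 x y
    simp only [LinearMap.sub_apply, LinearMap.smul_apply, Module.End.one_apply, map_sub, map_smul,
      smul_eq_mul]
    linear_combination h1

lemma V_eq (t : Σ i, (K i →+* ℂ)) (h : F.re t.1) :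
    F.V t = Submodule.span ℂ (Set.range ((F.R t.1 h).e t.2)) := by
  rw [V, F.rho_re t.1 h]
  apply le_antisymm
  · rintro _ ⟨v, rfl⟩
    rw [(F.R t.1 h).proj_eq]
    exact Submodule.sum_mem _ fun j _ => Submodule.smul_mem _ _ (Submodule.subset_span ⟨j, rfl⟩)
  · rw [Submodule.span_le]
    rintro _ ⟨j, rfl⟩
    rw [(F.R t.1 h).e_eq]
    exact ⟨_, rfl⟩

variable {k : ℕ} (α : MultilinearMap ℂ (fun _ : Fin (2 * k) => HW κ n) ℂ)
  (hϖ : ϖ ≠ 0)
  (hB : ∀ v : Fin (2 * k) → HW κ n, (∀ r, IsRatP n P (v r)) → ∃ q : ℚ, α v = ϖ ^ k * q)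
  (hA : ∀ v : Fin (2 * k) → HW κ n, (∀ r i m j, IsAlgebraic ℚ (v r i m j)) →
      IsAlgebraic ℚ (α v))

include hϖ hB hA in
theorem irr [Fintype I] [DecidableEq I] (t : Σ i, (K i →+* ℂ)) (h : F.Good t) :
    LieModule.IsIrreducible ℂ (F.L n α) (F.V t) := by
  have : Nontrivial (F.V t) := by
    rw [Submodule.nontrivial_iff_ne_bot]
    exact h.2
  apply LieModule.IsIrreducible.mk
  intro N hN
  -- the underlying subspace
  have h1 := (F.R t.1 h.1).irred_place n P α t.1 hϖ hB hA t.2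
    (N.toSubmodule.map (F.V t).subtype) (by
      rw [← F.V_eq t h.1]
      rintro _ ⟨v, -, rfl⟩
      exact v.2) (by
      rintro X hX _ ⟨v, hv, rfl⟩
      have h2 : (⁅(⟨F.phi X, (F.mem_L n α _).mpr ⟨X, hX, rfl⟩⟩ : F.L n α), v⁆ : F.V t) ∈ N :=
        N.lie_mem hv
      have h3 : X.1 t.1 v = ((⁅(⟨F.phi X, (F.mem_L n α _).mpr ⟨X, hX, rfl⟩⟩ : F.L n α), v⁆ +
          (X.2 / 2) • v : F.V t) : κ t.1 → ℂ) := by
        rw [Submodule.coe_add, Submodule.coe_smul, F.lie_coe]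
        show _ = (F.phi X t.1) v + _
        rw [F.phi_re _ _ h.1]
        simp
      show X.1 t.1 v ∈ _
      rw [h3]
      exact ⟨_, N.toSubmodule.add_mem h2 (N.toSubmodule.smul_mem _ hv), rfl⟩)
  rcases h1 with h1 | h1
  · exfalso
    apply hN
    rw [LieSubmodule.eq_bot_iff]
    intro v hv
    have h2 : (v : κ t.1 → ℂ) ∈ N.toSubmodule.map (F.V t).subtype := ⟨v, hv, rfl⟩
    rw [h1, Submodule.mem_bot] at h2
    exact Subtype.ext h2
  · rw [← F.V_eq t h.1] at h1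
    rw [eq_top_iff]
    intro v _
    have h2 : (v : κ t.1 → ℂ) ∈ N.toSubmodule.map (F.V t).subtype := by rw [h1]; exact v.2
    obtain ⟨w, hw, hwv⟩ := h2
    have h3 : w = v := Subtype.ext hwv
    rw [← h3]
    exact hw

lemma trace_zero (t : Σ i, (K i →+* ℂ)) (h : F.re t.1) (x : F.L n α) :
    LinearMap.trace ℂ _ (LieModule.toEnd ℂ (F.L n α) (F.V t) x) = 0 :=
  trace_eq_zero_of_skew (F.om t) (F.symp n α t h).nd _ (fun u v => (F.symp n α t h).inv x u v)

lemma faithful (x : F.L n α) (h : ∀ t, F.Good t → ∀ v : F.V t, ⁅x, v⁆ = 0) : x = 0 := by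
  apply Subtype.ext
  funext i
  show x.1 i = 0
  by_cases hi : F.re i
  · apply LinearMap.ext
    intro v
    have h1 : v = ∑ σ : K i →+* ℂ, proj (F.rho i) σ v := by
      rw [← LinearMap.sum_apply, sum_proj]; rfl
    rw [h1, map_sum]
    refine Finset.sum_eq_zero fun σ _ => ?_
    by_cases hg : F.V ⟨i, σ⟩ = ⊥
    · have h2 : proj (F.rho i) σ v ∈ F.V ⟨i, σ⟩ := F.proj_mem ⟨i, σ⟩ v
      rw [hg, Submodule.mem_bot] at h2
      rw [h2, map_zero]
    · have h2 := h ⟨i, σ⟩ ⟨hi, hg⟩ ⟨_, F.proj_mem ⟨i, σ⟩ v⟩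
      have h3 := congrArg Subtype.val h2
      rw [F.lie_coe] at h3
      exact h3
  · obtain ⟨X, hX, hx⟩ := (F.mem_L n α x.1).mp x.2
    rw [← hx, F.phi_cm _ _ hi]

instance finL [Finite I] : FiniteDimensional ℂ (F.L n α) := by
  have : FiniteDimensional ℂ ((i : I) → Module.End ℂ (κ i → ℂ)) := inferInstance
  exact FiniteDimensional.finiteDimensional_submodule (F.L n α).toSubmodule

include hϖ hB hA in
theorem killing [Fintype I] [DecidableEq I] : LieAlgebra.IsKilling ℂ (F.L n α) := by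
  have h1 : ∀ s : {t : Σ i, (K i →+* ℂ) // F.Good t},
      LieModule.IsIrreducible ℂ (F.L n α) (F.V s.1) := fun s => F.irr n α hϖ hB hA s.1 s.2
  have h2 : LieAlgebra.HasTrivialRadical ℂ (F.L n α) :=
    trivialRadical_of_family (fun s : {t : Σ i, (K i →+* ℂ) // F.Good t} => F.V s.1)
      (fun s x => F.trace_zero n α s.1 s.2.1 x)
      (fun x hx => F.faithful n α x (fun t ht v => hx ⟨t, ht⟩ v))
  infer_instance

end JF

end

end Pool.Agent.Helper8
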