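import Pool.Agent.Helper7.Family3
import Pool.Agent.Helper7.Irred
import Pool.Agent.Helper8.Lie.Semisimple
import Pool.Agent.Helper8.Lie.ModLemmas
import Pool.Agent.Helper8.Lie.Classify
import Pool.Agent.Helper8.Lie.Num4
import Pool.Agent.Helper8.Lie.NumRest

/-!
Factors of real type and with complex multiplication: the Lie algebra of symmetries, and the
modules given by the places.
-/

namespace Pool.Agent.Helper8

open Module NumberField Pool.Agent.Helper7

attribute [local instance 100] LieRing.ofAssociativeRing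

/-- factors of real type and with complex multiplication -/
structure JF {I : Type} {κ : I → Type} [∀ i, Fintype (κ i)] [∀ i, DecidableEq (κ i)] {ϖ : ℂ}
    (P : ∀ i, PData (κ i) ϖ) (K : I → Type) [∀ i, Field (K i)] [∀ i, NumberField (K i)] where
  re : I → Prop
  R : ∀ i, re i → RF (P i) (K i)
  C : ∀ i, ¬ re i → Fac (P i) (K i)
  hC : ∀ i h, ¬ (C i h).gl
  hre : ∀ i, re i → ∀ σ : K i →+* ℂ, ComplexEmbedding.conjugate σ = σ

section
variable {I : Type} {κ : I → Type} [∀ i, Fintype (κ i)] [∀ i, DecidableEq (κ i)] {ϖ : ℂ}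
  {P : ∀ i, PData (κ i) ϖ} {K : I → Type} [∀ i, Field (K i)] [∀ i, NumberField (K i)]

namespace JF

variable (F : JF P K)

open Classical in
/-- the action of the number fields -/
noncomputable def rho (i : I) : K i →+* Module.End ℂ (κ i → ℂ) :=
  if h : F.re i then (F.R i h).ρ else (F.C i h).ρ

lemma rho_re (i : I) (h : F.re i) : F.rho i = (F.R i h).ρ := by rw [rho, dif_pos h]

lemma rho_cm (i : I) (h : ¬ F.re i) : F.rho i = (F.C i h).ρ := by rw [rho, dif_neg h]

lemma rho_drb (i : I) (x : K i) : IsDRB (P i) (P i) (F.rho i x) := by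
  by_cases h : F.re i
  · rw [F.rho_re i h]; exact (F.R i h).hρ x
  · rw [F.rho_cm i h]; exact (F.C i h).hρ x

/-- the eigenspaces of the number fields -/
noncomputable def V (t : Σ i, (K i →+* ℂ)) : Submodule ℂ (κ t.1 → ℂ) :=
  LinearMap.range (proj (F.rho t.1) t.2)

lemma proj_mem (t : Σ i, (K i →+* ℂ)) (v : κ t.1 → ℂ) : proj (F.rho t.1) t.2 v ∈ F.V t := ⟨v, rfl⟩

lemma proj_of_mem (t : Σ i, (K i →+* ℂ)) {v : κ t.1 → ℂ} (hv : v ∈ F.V t) :
    proj (F.rho t.1) t.2 v = v := by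
  classical
  obtain ⟨u, rfl⟩ := hv
  rw [← Module.End.mul_apply, proj_mul_proj, if_pos rfl]

end JF

end

section
variable {I : Type} (n : I → ℕ)
  {κ : I → Type} [∀ i, Fintype (κ i)] [∀ i, DecidableEq (κ i)] {ϖ : ℂ}
  {P : ∀ i, PData (κ i) ϖ}
  {K : I → Type} [∀ i, Field (K i)] [∀ i, NumberField (K i)] (F : JF P K)
  {k : ℕ} (α : MultilinearMap ℂ (fun _ : Fin (2 * k) => HW κ n) ℂ)

include F in
lemma isInv_proj {X : GG κ} (hX : IsInv n P α X) (t : Σ i, (K i →+* ℂ)) (v : κ t.1 → ℂ) :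
    X.1 t.1 (proj (F.rho t.1) t.2 v) = proj (F.rho t.1) t.2 (X.1 t.1 v) := by
  rw [proj_apply, proj_apply, map_sum]
  refine Finset.sum_congr rfl fun b _ => ?_
  rw [map_smul, hX.comm t.1 t.1 _ (F.rho_drb t.1 _)]

lemma isInv_V {X : GG κ} (hX : IsInv n P α X) (t : Σ i, (K i →+* ℂ)) {v : κ t.1 → ℂ}
    (hv : v ∈ F.V t) : X.1 t.1 v ∈ F.V t := by
  rw [← F.proj_of_mem t hv, isInv_proj n F α hX]
  exact F.proj_mem t _

open Classical in
/-- the normalised action -/
noncomputable def JF.phi : GG κ →ₗ[ℂ] ((i : I) → Module.End ℂ (κ i → ℂ)) where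
  toFun X := fun i => if F.re i then X.1 i - (X.2 / 2) • 1 else 0
  map_add' X Y := by
    funext i
    show (if F.re i then (X.1 i + Y.1 i) - ((X.2 + Y.2) / 2) • 1 else 0) =
      (if F.re i then X.1 i - (X.2 / 2) • 1 else 0) + (if F.re i then Y.1 i - (Y.2 / 2) • 1 else 0)
    split_ifs
    · rw [add_div, add_smul]; abel
    · rw [add_zero]
  map_smul' c X := by
    funext i
    show (if F.re i then (c • X.1 i) - ((c * X.2) / 2) • 1 else 0) =
      c • (if F.re i then X.1 i - (X.2 / 2) • 1 else 0)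
    split_ifs
    · rw [smul_sub, smul_smul, mul_div_assoc]
    · rw [smul_zero]

lemma JF.phi_re (X : GG κ) (i : I) (h : F.re i) : F.phi X i = X.1 i - (X.2 / 2) • 1 := if_pos h

lemma JF.phi_cm (X : GG κ) (i : I) (h : ¬ F.re i) : F.phi X i = 0 := if_neg h

lemma JF.phi_bracket (X Y : GG κ) (i : I) :
    F.phi (X * Y - Y * X) i = F.phi X i * F.phi Y i - F.phi Y i * F.phi X i := by
  by_cases h : F.re i
  · rw [F.phi_re _ _ h, F.phi_re _ _ h, F.phi_re _ _ h]
    have h1 : (X * Y - Y * X).2 = 0 := by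
      show X.2 * Y.2 - Y.2 * X.2 = 0
      ring
    rw [h1, zero_div, zero_smul, sub_zero]
    show X.1 i * Y.1 i - Y.1 i * X.1 i = _
    simp only [sub_mul, mul_sub, smul_mul_assoc, mul_smul_comm, one_mul, mul_one, smul_sub,
      smul_smul]
    rw [mul_comm (X.2 / 2)]
    abel
  · rw [F.phi_cm _ _ h, F.phi_cm _ _ h, F.phi_cm _ _ h]
    simp

/-- the Lie algebra of normalised symmetries -/
noncomputable def JF.L : LieSubalgebra ℂ ((i : I) → Module.End ℂ (κ i → ℂ)) where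
  toSubmodule := (gSub n P α).map F.phi
  lie_mem' := by
    rintro _ _ ⟨X, hX, rfl⟩ ⟨Y, hY, rfl⟩
    refine ⟨X * Y - Y * X, IsInv.bracket n P α hX hY, ?_⟩
    funext i
    rw [F.phi_bracket]
    rfl

lemma JF.mem_L (x : (i : I) → Module.End ℂ (κ i → ℂ)) :
    x ∈ F.L n α ↔ ∃ X, IsInv n P α X ∧ F.phi X = x := Iff.rfl

lemma JF.L_V (x : F.L n α) (t : Σ i, (K i →+* ℂ)) {v : κ t.1 → ℂ} (hv : v ∈ F.V t) :
    x.1 t.1 v ∈ F.V t := by
  obtain ⟨X, hX, hx⟩ := (F.mem_L n α x.1).mp x.2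
  rw [← hx]
  by_cases h : F.re t.1
  · rw [F.phi_re _ _ h]
    exact Submodule.sub_mem _ (isInv_V n F α hX t hv) (Submodule.smul_mem _ _ hv)
  · rw [F.phi_cm _ _ h]
    exact Submodule.zero_mem _

/-- the action on the eigenspaces -/
noncomputable def JF.act (t : Σ i, (K i →+* ℂ)) : F.L n α →ₗ⁅ℂ⁆ Module.End ℂ (F.V t) where
  toFun x := (x.1 t.1).restrict (fun _ hv => F.L_V n α x t hv)
  map_add' x y := by ext v; rfl
  map_smul' c x := by ext v; rfl
  map_lie' := by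
    intro x y
    apply LinearMap.ext
    intro v
    apply Subtype.ext
    rfl

noncomputable instance JF.lrm (t : Σ i, (K i →+* ℂ)) : LieRingModule (F.L n α) (F.V t) :=
  LieRingModule.compLieHom (F.V t) (F.act n α t)

noncomputable instance JF.lm (t : Σ i, (K i →+* ℂ)) : LieModule ℂ (F.L n α) (F.V t) :=
  LieModule.compLieHom (F.V t) (F.act n α t)

lemma JF.lie_coe (x : F.L n α) (t : Σ i, (K i →+* ℂ)) (v : F.V t) :
    ((⁅x, v⁆ : F.V t) : κ t.1 → ℂ) = x.1 t.1 v := rfl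

lemma JF.lie_cm (x : F.L n α) (t : Σ i, (K i →+* ℂ)) (h : ¬ F.re t.1) (v : F.V t) :
    ⁅x, v⁆ = 0 := by
  apply Subtype.ext
  rw [F.lie_coe]
  obtain ⟨X, hX, hx⟩ := (F.mem_L n α x.1).mp x.2
  rw [← hx, F.phi_cm _ _ h]
  rfl

end

end Pool.Agent.Helper8
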