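import Pool.Agent.Helper8.J.Atoms

/-!
Forms of degree four: invariance of the components, and reduction to invariant pairings.
-/

namespace Pool.Agent.Helper8

open Module NumberField Pool.Agent.Helper7

attribute [local instance 100] LieRing.ofAssociativeRing

section
variable {I : Type} (n : I → ℕ)
  {κ : I → Type} [∀ i, Fintype (κ i)] [∀ i, DecidableEq (κ i)] {ϖ : ℂ}
  {P : ∀ i, PData (κ i) ϖ}
  {K : I → Type} [∀ i, Field (K i)] [∀ i, NumberField (K i)] (F : JF P K)
  [DecidableEq I] (α : MultilinearMap ℂ (fun _ : Fin (2 * 2) => HW κ n) ℂ)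

namespace JF

/-- the component of a form of degree four -/
noncomputable def G (a b c d : At n K) (x : F.V (pl a)) (y : F.V (pl b)) (z : F.V (pl c))
    (w : F.V (pl d)) : ℂ :=
  α (q4 (F.inc n a x) (F.inc n b y) (F.inc n c z) (F.inc n d w))

lemma G_ml (a b c d : At n K) : ML4 (F.G n α a b c d) :=
  (ml4_q4 α).comp (F.inc n a) (F.inc n b) (F.inc n c) (F.inc n d)

lemma G_D {X : GG κ} (hX : IsInv n P α X) (a b c d : At n K) (x : F.V (pl a)) (y : F.V (pl b))
    (z : F.V (pl c)) (w : F.V (pl d)) :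
    F.G n α a b c d (F.D X _ x) y z w + F.G n α a b c d x (F.D X _ y) z w +
      F.G n α a b c d x y (F.D X _ z) w + F.G n α a b c d x y z (F.D X _ w) =
      2 * X.2 * F.G n α a b c d x y z w := by
  have h1 := congrArg (fun g => g (q4 (F.inc n a x) (F.inc n b y) (F.inc n c z) (F.inc n d w)))
    hX.form
  simp only at h1
  rw [actForm_q4, _root_.smul_apply, smul_eq_mul] at h1
  simp only [F.lift_inc n α hX] at h1
  push_cast at h1
  exact h1

lemma G_lie {X : GG κ} (hX : IsInv n P α X) (a b c d : At n K) (x : F.V (pl a)) (y : F.V (pl b))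
    (z : F.V (pl c)) (w : F.V (pl d)) :
    F.G n α a b c d ⁅F.mkL n α hX, x⁆ y z w + F.G n α a b c d x ⁅F.mkL n α hX, y⁆ z w +
      F.G n α a b c d x y ⁅F.mkL n α hX, z⁆ w + F.G n α a b c d x y z ⁅F.mkL n α hX, w⁆ =
      (2 * X.2 - F.wt (pl a) X - F.wt (pl b) X - F.wt (pl c) X - F.wt (pl d) X) *
        F.G n α a b c d x y z w := by
  have h := F.G_D n α hX a b c d x y z w
  have hG := F.G_ml n α a b c d
  rw [F.D_eq n α hX, F.D_eq n α hX, F.D_eq n α hX, F.D_eq n α hX] at h
  have e1 := (hG.l1 y z w).map_add ⁅F.mkL n α hX, x⁆ (F.wt (pl a) X • x)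
  have e1' := (hG.l1 y z w).map_smul (F.wt (pl a) X) x
  have e2 := (hG.l2 x z w).map_add ⁅F.mkL n α hX, y⁆ (F.wt (pl b) X • y)
  have e2' := (hG.l2 x z w).map_smul (F.wt (pl b) X) y
  have e3 := (hG.l3 x y w).map_add ⁅F.mkL n α hX, z⁆ (F.wt (pl c) X • z)
  have e3' := (hG.l3 x y w).map_smul (F.wt (pl c) X) z
  have e4 := (hG.l4 x y z).map_add ⁅F.mkL n α hX, w⁆ (F.wt (pl d) X • w)
  have e4' := (hG.l4 x y z).map_smul (F.wt (pl d) X) w
  simp only [smul_eq_mul] at e1' e2' e3' e4'
  rw [e1, e2, e3, e4, e1', e2', e3', e4'] at h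
  linear_combination h

/-- the components are invariant under the normalised symmetries -/
lemma G_inv (hk : LieAlgebra.IsKilling ℂ (F.L n α)) [Finite I] (a b c d : At n K) :
    Inv4 (F.L n α) (F.G n α a b c d) := by
  have hG := F.G_ml n α a b c d
  intro u x y z w
  have h1 := perfect_of_killing (L := F.L n α) u
  induction h1 using Submodule.span_induction with
  | mem u hu =>
    obtain ⟨s, t, rfl⟩ := hu
    obtain ⟨X, hX, rfl⟩ := F.exists_mkL n α s
    obtain ⟨Y, hY, rfl⟩ := F.exists_mkL n α t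
    rw [F.mkL_bracket, F.G_lie n α]
    have h0 : (X * Y - Y * X).2 = 0 := by
      show X.2 * Y.2 - Y.2 * X.2 = 0
      ring
    rw [F.wt_bracket n α hX hY, F.wt_bracket n α hX hY, F.wt_bracket n α hX hY,
      F.wt_bracket n α hX hY, h0]
    ring
  | zero =>
    simp only [zero_lie]
    rw [(hG.l1 y z w).map_zero, (hG.l2 x z w).map_zero, (hG.l3 x y w).map_zero,
      (hG.l4 x y z).map_zero]
    ring
  | add s t _ _ hs ht =>
    simp only [add_lie]
    rw [(hG.l1 y z w).map_add, (hG.l2 x z w).map_add, (hG.l3 x y w).map_add,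
      (hG.l4 x y z).map_add]
    linear_combination hs + ht
  | smul r s _ hs =>
    have e : ∀ (t : Σ i, (K i →+* ℂ)) (v : F.V t), ⁅r • s, v⁆ = r • ⁅s, v⁆ :=
      fun t v => smul_lie r s v
    rw [e, e, e, e, (hG.l1 y z w).map_smul, (hG.l2 x z w).map_smul, (hG.l3 x y w).map_smul,
      (hG.l4 x y z).map_smul]
    simp only [smul_eq_mul]
    linear_combination r * hs

/-- the relation between the scalar parts -/
lemma G_wt (hk : LieAlgebra.IsKilling ℂ (F.L n α)) [Finite I] (a b c d : At n K)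
    (hne : ∃ x y z w, F.G n α a b c d x y z w ≠ 0) {X : GG κ} (hX : IsInv n P α X) :
    F.wt (pl a) X + F.wt (pl b) X + F.wt (pl c) X + F.wt (pl d) X = 2 * X.2 := by
  obtain ⟨x, y, z, w, h⟩ := hne
  have h1 := F.G_lie n α hX a b c d x y z w
  have h2 : F.G n α a b c d ⁅F.mkL n α hX, x⁆ y z w + F.G n α a b c d x ⁅F.mkL n α hX, y⁆ z w +
      F.G n α a b c d x y ⁅F.mkL n α hX, z⁆ w + F.G n α a b c d x y z ⁅F.mkL n α hX, w⁆ = 0 :=
    F.G_inv n α hk a b c d (F.mkL n α hX) x y z w
  rw [h2] at h1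
  have h3 := mul_eq_zero.mp h1.symm
  rcases h3 with h3 | h3
  · linear_combination -h3
  · exact absurd h3 h

/-- the statement on the component with given slots -/
def S (a b c d : At n K) : Prop :=
  (fun x y z w => F.G n α a b c d (F.prj n a x) (F.prj n b y) (F.prj n c z) (F.prj n d w)) ∈
    S4 (invB n P α)

lemma invB_flip : FlipClosed (invB n P α) := by
  intro β hβ X hX u v
  have h := hβ X hX v u
  show β v (lift n X.1 u) + β (lift n X.1 v) u = X.2 * β v u
  rw [← h, add_comm]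

section swaps
variable (a1 : ∀ x y z w, α (q4 y x z w) = - α (q4 x y z w))
  (a2 : ∀ x y z w, α (q4 x z y w) = - α (q4 x y z w))
  (a3 : ∀ x y z w, α (q4 x y w z) = - α (q4 x y z w))

include a1 in
lemma S_swap1 (a b c d : At n K) (h : F.S n α a b c d) : F.S n α b a c d := by
  have h1 := (S4 (invB n P α)).neg_mem (S4.swap1 (invB_flip n α) h)
  have h2 : (fun x y z w => F.G n α b a c d (F.prj n b x) (F.prj n a y) (F.prj n c z)
      (F.prj n d w)) = -(fun x y z w => F.G n α a b c d (F.prj n a y) (F.prj n b x)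
      (F.prj n c z) (F.prj n d w)) := by
    funext x y z w
    exact a1 _ _ _ _
  show (fun x y z w => F.G n α b a c d (F.prj n b x) (F.prj n a y) (F.prj n c z)
      (F.prj n d w)) ∈ _
  rw [h2]
  exact h1

include a2 in
lemma S_swap2 (a b c d : At n K) (h : F.S n α a b c d) : F.S n α a c b d := by
  have h1 := (S4 (invB n P α)).neg_mem (S4.swap2 (invB_flip n α) h)
  have h2 : (fun x y z w => F.G n α a c b d (F.prj n a x) (F.prj n c y) (F.prj n b z)
      (F.prj n d w)) = -(fun x y z w => F.G n α a b c d (F.prj n a x) (F.prj n b z)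
      (F.prj n c y) (F.prj n d w)) := by
    funext x y z w
    exact a2 _ _ _ _
  show (fun x y z w => F.G n α a c b d (F.prj n a x) (F.prj n c y) (F.prj n b z)
      (F.prj n d w)) ∈ _
  rw [h2]
  exact h1

include a3 in
lemma S_swap3 (a b c d : At n K) (h : F.S n α a b c d) : F.S n α a b d c := by
  have h1 := (S4 (invB n P α)).neg_mem (S4.swap3 (invB_flip n α) h)
  have h2 : (fun x y z w => F.G n α a b d c (F.prj n a x) (F.prj n b y) (F.prj n d z)
      (F.prj n c w)) = -(fun x y z w => F.G n α a b c d (F.prj n a x) (F.prj n b y)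
      (F.prj n c w) (F.prj n d z)) := by
    funext x y z w
    exact a3 _ _ _ _
  show (fun x y z w => F.G n α a b d c (F.prj n a x) (F.prj n b y) (F.prj n d z)
      (F.prj n c w)) ∈ _
  rw [h2]
  exact h1

include a1 in
lemma G_alt1 (a c d : At n K) (x y : F.V (pl a)) (z : F.V (pl c)) (w : F.V (pl d)) :
    F.G n α a a c d y x z w = - F.G n α a a c d x y z w := a1 _ _ _ _

include a2 in
lemma G_alt2 (a b d : At n K) (x : F.V (pl b)) (y z : F.V (pl a)) (w : F.V (pl d)) :
    F.G n α b a a d x z y w = - F.G n α b a a d x y z w := a2 _ _ _ _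

include a3 in
lemma G_alt3 (a b c : At n K) (x : F.V (pl b)) (y : F.V (pl c)) (z w : F.V (pl a)) :
    F.G n α b c a a x y w z = - F.G n α b c a a x y z w := a3 _ _ _ _

end swaps

/-- it suffices to treat the components -/
lemma mem_S4 [Fintype I] (h : ∀ a b c d : At n K, F.S n α a b c d) :
    (fun x y z w => α (q4 x y z w)) ∈ S4 (invB n P α) := by
  have hG := ml4_q4 α
  have h1 : (fun x y z w => α (q4 x y z w)) = ∑ a : At n K, ∑ b : At n K, ∑ c : At n K,
      ∑ d : At n K, (fun x y z w => F.G n α a b c d (F.prj n a x) (F.prj n b y) (F.prj n c z)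
        (F.prj n d w)) := by
    funext x y z w
    simp only [Finset.sum_apply]
    conv_lhs => rw [← F.sum_inc_prj n x, ← F.sum_inc_prj n y, ← F.sum_inc_prj n z,
      ← F.sum_inc_prj n w]
    have e1 : ∀ (y z w : HW κ n) (f : At n K → HW κ n), α (q4 (∑ a, f a) y z w) =
        ∑ a, α (q4 (f a) y z w) := fun y z w f => map_sum ((hG.l1 y z w).mk' _) f Finset.univ
    have e2 : ∀ (x z w : HW κ n) (f : At n K → HW κ n), α (q4 x (∑ a, f a) z w) =
        ∑ a, α (q4 x (f a) z w) := fun x z w f => map_sum ((hG.l2 x z w).mk' _) f Finset.univ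
    have e3 : ∀ (x y w : HW κ n) (f : At n K → HW κ n), α (q4 x y (∑ a, f a) w) =
        ∑ a, α (q4 x y (f a) w) := fun x y w f => map_sum ((hG.l3 x y w).mk' _) f Finset.univ
    have e4 : ∀ (x y z : HW κ n) (f : At n K → HW κ n), α (q4 x y z (∑ a, f a)) =
        ∑ a, α (q4 x y z (f a)) := fun x y z f => map_sum ((hG.l4 x y z).mk' _) f Finset.univ
    rw [e1]
    refine Finset.sum_congr rfl fun a _ => ?_
    rw [e2]
    refine Finset.sum_congr rfl fun b _ => ?_
    rw [e3]
    refine Finset.sum_congr rfl fun c _ => ?_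
    rw [e4]
    rfl
  rw [h1]
  exact Submodule.sum_mem _ fun a _ => Submodule.sum_mem _ fun b _ => Submodule.sum_mem _
    fun c _ => Submodule.sum_mem _ fun d _ => h a b c d

/-- invariant pairings of two summands -/
def IP (a b : At n K) (f : F.V (pl a) → F.V (pl b) → ℂ) : Prop :=
  ML2 f ∧ ∀ X, IsInv n P α X → ∀ x y, f (F.D X _ x) y + f x (F.D X _ y) = X.2 * f x y

/-- the bilinear form given by an invariant pairing -/
lemma IP.exists_form {a b : At n K} {f : F.V (pl a) → F.V (pl b) → ℂ} (hf : F.IP n α a b f) :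
    ∃ β ∈ invB n P α, ∀ u v, β u v = f (F.prj n a u) (F.prj n b v) := by
  obtain ⟨γ, hγ⟩ := exists_linear hf.1
  refine ⟨γ.compl₁₂ (F.prj n a) (F.prj n b), ?_, fun u v => hγ _ _⟩
  intro X hX u v
  simp only [LinearMap.compl₁₂_apply, hγ, F.prj_lift n α hX]
  exact hf.2 X hX _ _

lemma IP.m1 {a b c d : At n K} {f : F.V (pl a) → F.V (pl b) → ℂ}
    {g : F.V (pl c) → F.V (pl d) → ℂ} (hf : F.IP n α a b f) (hg : F.IP n α c d g) :
    (fun x y z w => f (F.prj n a x) (F.prj n b y) * g (F.prj n c z) (F.prj n d w)) ∈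
      S4 (invB n P α) := by
  obtain ⟨β, hβ, hβf⟩ := hf.exists_form
  obtain ⟨γ, hγ, hγg⟩ := hg.exists_form
  simp only [← hβf, ← hγg]
  exact S4.m1 hβ hγ

lemma IP.m2 {a b c d : At n K} {f : F.V (pl a) → F.V (pl c) → ℂ}
    {g : F.V (pl b) → F.V (pl d) → ℂ} (hf : F.IP n α a c f) (hg : F.IP n α b d g) :
    (fun x y z w => f (F.prj n a x) (F.prj n c z) * g (F.prj n b y) (F.prj n d w)) ∈
      S4 (invB n P α) := by
  obtain ⟨β, hβ, hβf⟩ := hf.exists_form
  obtain ⟨γ, hγ, hγg⟩ := hg.exists_form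
  simp only [← hβf, ← hγg]
  exact S4.m2 hβ hγ

lemma IP.m3 {a b c d : At n K} {f : F.V (pl a) → F.V (pl d) → ℂ}
    {g : F.V (pl b) → F.V (pl c) → ℂ} (hf : F.IP n α a d f) (hg : F.IP n α b c g) :
    (fun x y z w => f (F.prj n a x) (F.prj n d w) * g (F.prj n b y) (F.prj n c z)) ∈
      S4 (invB n P α) := by
  obtain ⟨β, hβ, hβf⟩ := hf.exists_form
  obtain ⟨γ, hγ, hγg⟩ := hg.exists_form
  simp only [← hβf, ← hγg]
  exact S4.m3 hβ hγ

/-- invariant pairings of summands of real type -/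
lemma IP.of_inv {a b : At n K} (ha : F.re a.1) (hb : F.re b.1) {f : F.V (pl a) → F.V (pl b) → ℂ}
    (hf : ML2 f) (hI : Inv2 (F.L n α) f) : F.IP n α a b f := by
  refine ⟨hf, fun X hX x y => ?_⟩
  rw [F.D_eq n α hX, F.D_eq n α hX, (hf.l1 y).map_add, (hf.l2 x).map_add, (hf.l1 y).map_smul,
    (hf.l2 x).map_smul, F.wt_re (pl a) ha, F.wt_re (pl b) hb, smul_eq_mul]
  have h := hI (F.mkL n α hX) x y
  linear_combination h

lemma S_of_zero (a b c d : At n K) (h : ∀ x y z w, F.G n α a b c d x y z w = 0) :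
    F.S n α a b c d := by
  have h1 : (fun x y z w => F.G n α a b c d (F.prj n a x) (F.prj n b y) (F.prj n c z)
      (F.prj n d w)) = 0 := by
    funext x y z w
    exact h _ _ _ _
  show (fun x y z w => F.G n α a b c d (F.prj n a x) (F.prj n b y) (F.prj n c z)
      (F.prj n d w)) ∈ _
  rw [h1]
  exact Submodule.zero_mem _

end JF

end

end Pool.Agent.Helper8
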